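import Pool.Agent.H17.UN.Tow

/-!
# MP_8b378c_ag: Galois stability of the charts and of the point (board `uto_modules`, row FBS)
-/

set_option autoImplicit false

open Polynomial
open Pool.Agent.H17.UN

namespace Pool.Agent.H13.UN

/-- an element which is algebraic over `K` is in `Kb` -/
theorem mem_kb {K L : Type} [Field K] [Field L] [Algebra K L] (Kb : IntermediateField K L)
    (hcl : IsAlgClosed Kb) (x : L) (hx : IsAlgebraic K x) : x ∈ Kb := by
  have h1 : IsAlgebraic Kb x := hx.tower_top Kb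
  have h2 : IsIntegral Kb x := h1.isIntegral
  have h3 := IsAlgClosed.degree_eq_one_of_irreducible Kb (minpoly.irreducible h2)
  obtain ⟨y, hy⟩ := minpoly.mem_range_of_degree_eq_one Kb x h3
  rw [← hy]
  exact y.2

section

variable {K L : Type} [Field K] [Field L] [Algebra K L] {F Kb Ω : IntermediateField K L}

theorem st_adjoin (σ : L ≃ₐ[Ω] L) (hkb : ∀ c : Kb, σ c ∈ Kb)
    (hfb : ∀ x : Fb F Kb, σ x ∈ Fb F Kb) (S : Set (Fb F Kb)) (hS : ∀ g ∈ S, σ (g : L) = g)
    (a : Fb F Kb) (ha : a ∈ Algebra.adjoin Kb S) :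
    ∀ a' : Fb F Kb, (a' : L) = σ a → a' ∈ Algebra.adjoin Kb S := by
  induction ha using Algebra.adjoin_induction with
  | mem x hx =>
    intro a' ha'
    rw [hS x hx] at ha'
    have h1 : a' = x := Subtype.ext ha'
    rw [h1]
    exact Algebra.subset_adjoin hx
  | algebraMap c =>
    intro a' ha'
    have h1 : a' = algebraMap Kb (Fb F Kb) ⟨σ c, hkb c⟩ := Subtype.ext ha'
    rw [h1]
    exact Subalgebra.algebraMap_mem _ _
  | add x y _ _ hx hy =>
    intro a' ha'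
    have h1 : a' = ⟨σ x, hfb x⟩ + ⟨σ y, hfb y⟩ := by
      apply Subtype.ext
      rw [ha']
      exact map_add σ (x : L) (y : L)
    rw [h1]
    exact Subalgebra.add_mem _ (hx _ rfl) (hy _ rfl)
  | mul x y _ _ hx hy =>
    intro a' ha'
    have h1 : a' = ⟨σ x, hfb x⟩ * ⟨σ y, hfb y⟩ := by
      apply Subtype.ext
      rw [ha']
      exact map_mul σ (x : L) (y : L)
    rw [h1]
    exact Subalgebra.mul_mem _ (hx _ rfl) (hy _ rfl)

end

theorem pf_FBS : T_FBS := by
  intro K L _ _ _ _ P Q e c c' p0 F Kb Ω0 Ω s y z v X Y X' Y' w hD hT s' y' z' hs hy hz φ hφ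
  have hcl : IsAlgClosed Kb := hT.cls
  have hkb : ∀ (σ : L ≃ₐ[Ω] L) (c : Kb), σ c ∈ Kb := by
    intro σ c
    refine mem_kb Kb hcl _ ?_
    have h1 : IsAlgebraic K (c : L) := hT.alg c c.2
    exact h1.algHom ((σ : L →ₐ[Ω] L).restrictScalars K)
  have hsF : s ∈ F := by
    rw [hT.hF]; exact IntermediateField.subset_adjoin K _ (by simp)
  have hyF : y ∈ F := by
    rw [hT.hF]; exact IntermediateField.subset_adjoin K _ (by simp)
  have hzF : z ∈ F := by
    rw [hT.hF]; exact IntermediateField.subset_adjoin K _ (by simp)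
  have hFΩ : F ≤ Ω := by
    have h1 : F ≤ Ω0 := by
      rw [hT.hF, hT.hΩ0]
      refine IntermediateField.adjoin.mono K _ _ ?_
      intro x hx
      left
      simp only [Set.mem_insert_iff, Set.mem_singleton_iff] at hx ⊢
      tauto
    rw [hT.hΩ]
    exact h1.trans le_sup_left
  have hfix : ∀ (σ : L ≃ₐ[Ω] L) (x : L), x ∈ F → σ x = x := by
    intro σ x hx
    exact σ.commutes (⟨x, hFΩ hx⟩ : Ω)
  have hfb : ∀ (σ : L ≃ₐ[Ω] L) (x : Fb F Kb), σ x ∈ Fb F Kb := by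
    intro σ x
    obtain ⟨x, hx⟩ := x
    change σ x ∈ Fb F Kb
    induction hx using IntermediateField.adjoin_induction with
    | mem x hx =>
      rw [hfix σ x hx]
      exact IntermediateField.subset_adjoin Kb _ hx
    | algebraMap c =>
      exact IntermediateField.algebraMap_mem (Fb F Kb) (⟨σ c, hkb σ c⟩ : Kb)
    | add x y _ _ hx hy =>
      rw [map_add]
      exact (Fb F Kb).add_mem hx hy
    | inv x _ hx =>
      rw [map_inv₀]
      exact (Fb F Kb).inv_mem hx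
    | mul x y _ _ hx hy =>
      rw [map_mul]
      exact (Fb F Kb).mul_mem hx hy
  have hst : ∀ (σ : L ≃ₐ[Ω] L) (i : Fin 4) (a a' : Fb F Kb), (a' : L) = σ a →
      a ∈ ch Kb s' y' z' i → a' ∈ ch Kb s' y' z' i := by
    intro σ i a a' haa ha
    have hg : ∀ g : Fb F Kb, (g : L) ∈ F → σ (g : L) = g := fun g hg => hfix σ _ hg
    have hs1 : (s' : L) ∈ F := by rw [hs]; exact hsF
    have hy1 : (y' : L) ∈ F := by rw [hy]; exact hyF
    have hz1 : (z' : L) ∈ F := by rw [hz]; exact hzF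
    have key : ∀ g1 g2 g3 : Fb F Kb, (g1 : L) ∈ F → (g2 : L) ∈ F → (g3 : L) ∈ F →
        a ∈ Algebra.adjoin Kb {g1, g2, g3} → a' ∈ Algebra.adjoin Kb {g1, g2, g3} := by
      intro g1 g2 g3 h1 h2 h3 h
      refine st_adjoin σ (hkb σ) (hfb σ) _ ?_ a h a' haa
      rintro g (rfl | rfl | rfl)
      · exact hg _ h1
      · exact hg _ h2
      · exact hg _ h3
    fin_cases i
    · exact key s' y' z' hs1 hy1 hz1 ha
    · exact key s' (y' / z') z'⁻¹ hs1 (F.div_mem hy1 hz1) (F.inv_mem hz1) ha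
    · have h2 : (s' : L) ^ 2 ∈ F := pow_mem hs1 2
      exact key s'⁻¹ (y' / s' ^ 2) (z' / s') (F.inv_mem hs1)
        (F.div_mem hy1 h2) (F.div_mem hz1 hs1) ha
    · exact key s'⁻¹ (y' / (s' * z')) (s' / z') (F.inv_mem hs1)
        (F.div_mem hy1 (F.mul_mem hs1 hz1)) (F.div_mem hs1 hz1) ha
  have hmain : ∀ (σ : L ≃ₐ[Ω] L) (x : Fb F Kb) (hx : x ∈ Algebra.adjoin Kb {s', y', z'})
      (a' : ch Kb s' y' z' 0), ((a' : Fb F Kb) : L) = σ (x : L) →
      ((φ a' : Kb) : L) = σ ((φ (⟨x, hx⟩ : ch Kb s' y' z' 0) : Kb) : L) := by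
    intro σ x hx
    induction hx using Algebra.adjoin_induction with
    | mem x hx =>
      intro a' ha'
      have hxF : (x : L) ∈ F := by
        rcases hx with h | h | h
        · rw [h, hs]; exact hsF
        · rw [h, hy]; exact hyF
        · rw [h, hz]; exact hzF
      rw [hfix σ _ hxF] at ha'
      have h1 : (a' : Fb F Kb) = x := Subtype.ext ha'
      have h2 : a' = ⟨x, Algebra.subset_adjoin hx⟩ := Subtype.ext h1
      rw [h2]
      rcases hx with h | h | h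
      · rw [(hφ _).1 h]
        exact (map_one σ).symm
      · rw [(hφ _).2.1 h]
        change algebraMap K L p0 = σ (algebraMap K L p0)
        exact (((σ : L →ₐ[Ω] L).restrictScalars K).commutes p0).symm
      · rw [(hφ _).2.2 (Set.mem_singleton_iff.1 h)]
        exact (map_zero σ).symm
    | algebraMap c =>
      intro a' ha'
      have h1 : a' = algebraMap Kb (ch Kb s' y' z' 0) ⟨σ c, hkb σ c⟩ :=
        Subtype.ext (Subtype.ext ha')
      rw [h1, φ.commutes]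
      change σ c = σ ((φ (algebraMap Kb (ch Kb s' y' z' 0) c) : Kb) : L)
      rw [φ.commutes]
      rfl
    | add x y hx hy ihx ihy =>
      intro a' ha'
      have h1 : a' = ⟨⟨σ x, hfb σ x⟩, hst σ 0 x _ rfl hx⟩ + ⟨⟨σ y, hfb σ y⟩, hst σ 0 y _ rfl hy⟩ := by
        refine Subtype.ext (Subtype.ext ?_)
        rw [ha']
        exact map_add σ (x : L) (y : L)
      have h2 : (⟨x + y, Subalgebra.add_mem _ hx hy⟩ : ch Kb s' y' z' 0) = ⟨x, hx⟩ + ⟨y, hy⟩ := rfl
      rw [h1, map_add]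
      change _ = σ ((φ (⟨x + y, Subalgebra.add_mem _ hx hy⟩ : ch Kb s' y' z' 0) : Kb) : L)
      rw [h2, map_add]
      have h3 := ihx ⟨⟨σ x, hfb σ x⟩, hst σ 0 x _ rfl hx⟩ rfl
      have h4 := ihy ⟨⟨σ y, hfb σ y⟩, hst σ 0 y _ rfl hy⟩ rfl
      change ((φ _ : Kb) : L) + ((φ _ : Kb) : L) = σ (((φ _ : Kb) : L) + ((φ _ : Kb) : L))
      rw [map_add, h3, h4]
    | mul x y hx hy ihx ihy =>
      intro a' ha'
      have h1 : a' = ⟨⟨σ x, hfb σ x⟩, hst σ 0 x _ rfl hx⟩ * ⟨⟨σ y, hfb σ y⟩, hst σ 0 y _ rfl hy⟩ := by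
        refine Subtype.ext (Subtype.ext ?_)
        rw [ha']
        exact map_mul σ (x : L) (y : L)
      have h2 : (⟨x * y, Subalgebra.mul_mem _ hx hy⟩ : ch Kb s' y' z' 0) = ⟨x, hx⟩ * ⟨y, hy⟩ := rfl
      rw [h1, map_mul]
      change _ = σ ((φ (⟨x * y, Subalgebra.mul_mem _ hx hy⟩ : ch Kb s' y' z' 0) : Kb) : L)
      rw [h2, map_mul]
      have h3 := ihx ⟨⟨σ x, hfb σ x⟩, hst σ 0 x _ rfl hx⟩ rfl
      have h4 := ihy ⟨⟨σ y, hfb σ y⟩, hst σ 0 y _ rfl hy⟩ rfl
      change ((φ _ : Kb) : L) * ((φ _ : Kb) : L) = σ (((φ _ : Kb) : L) * ((φ _ : Kb) : L))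
      rw [map_mul, h3, h4]
  refine ⟨hkb, hfb, hst, ?_⟩
  intro σ a a' haa
  exact hmain σ a a.2 a' haa

end Pool.Agent.H13.UN
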